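import Mathlib
import Pool.Agent.H78.PB.Stm2
import Pool.Agent.N892.BW.RZ

/-!
Project PB, part CRZ: the bound for the complex composition formula of Riesz.
-/

set_option autoImplicit false

open MeasureTheory Filter Topology Complex Set ProbabilityTheory
open scoped ComplexConjugate ENNReal

namespace Pool.Agent.H47PB.CRZ

open Pool.Agent.N892.BW Pool.Agent.H78.PB

/-- the logarithm of the base -/
noncomputable def X (t : ℂ) : ℝ := Real.log (‖t‖ * ‖1 - t‖)

theorem aepos : ∀ᵐ t : ℂ, 0 < ‖t‖ * ‖1 - t‖ := by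
  have h : ({0, 1} : Set ℂ).Countable := (Set.toFinite _).countable
  filter_upwards [h.ae_notMem volume] with t ht
  simp only [mem_insert_iff, mem_singleton_iff, not_or] at ht
  have h1 : 0 < ‖t‖ := norm_pos_iff.2 ht.1
  have h2 : 0 < ‖1 - t‖ := norm_pos_iff.2 (sub_ne_zero.2 (Ne.symm ht.2))
  positivity

theorem lint (a : ℝ) (ha : 0 < a) (ha1 : a < 1) :
    ∫⁻ t : ℂ, ENNReal.ofReal (Real.exp ((a - 2) * X t)) = ENNReal.ofReal (RB a a) := by
  have h := Pool.Agent.N892.BW.RZ.t a a ha ha (by linarith) 1 one_ne_zero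
  rw [norm_one, Real.one_rpow, mul_one] at h
  rw [← h]
  refine lintegral_congr_ae ?_
  filter_upwards [aepos] with t ht
  rw [← ENNReal.ofReal_mul (Real.rpow_nonneg (norm_nonneg _) _),
    ← Real.mul_rpow (norm_nonneg _) (norm_nonneg _), X, Real.rpow_def_of_pos ht, mul_comm (a - 2)]

theorem measX : Measurable X := by
  unfold X
  fun_prop

theorem integ (a : ℝ) (ha : 0 < a) (ha1 : a < 1) :
    Integrable (fun t => Real.exp ((a - 2) * X t)) (volume : Measure ℂ) := by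
  have hm : Measurable (fun t => Real.exp ((a - 2) * X t)) := by
    have := measX
    fun_prop
  refine ⟨hm.aestronglyMeasurable, ?_⟩
  rw [hasFiniteIntegral_iff_ofReal (Eventually.of_forall fun t => (Real.exp_pos _).le), lint a ha ha1]
  exact ENNReal.ofReal_lt_top

theorem RBpos (a : ℝ) (ha : 0 < a) (ha1 : a < 1) : 0 < RB a a := by
  unfold RB
  have h1 := Real.Gamma_pos_of_pos (show 0 < a / 2 by linarith)
  have h2 := Real.Gamma_pos_of_pos (show 0 < 1 - (a + a) / 2 by linarith)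
  have h3 := Real.Gamma_pos_of_pos (show 0 < 1 - a / 2 by linarith)
  have h4 := Real.Gamma_pos_of_pos (show 0 < (a + a) / 2 by linarith)
  have := Real.pi_pos
  positivity

theorem mg (a : ℝ) (ha : 0 < a) (ha1 : a < 1) :
    mgf X (volume : Measure ℂ) (a - 2) = RB a a := by
  have h1 := integ a ha ha1
  rw [mgf, integral_eq_lintegral_of_nonneg_ae (Eventually.of_forall fun t => (Real.exp_pos _).le)
    h1.aestronglyMeasurable, lint a ha ha1, ENNReal.toReal_ofReal (RBpos a ha ha1).le]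

/-- the value -/
noncomputable def G (z : ℂ) : ℂ :=
  (Real.pi : ℂ) * (Gamma (z / 2) * Gamma (z / 2) * Gamma (1 - z)) /
    (Gamma (1 - z / 2) * Gamma (1 - z / 2) * Gamma z)

/-- the strip -/
def S : Set ℂ := {z : ℂ | 0 < z.re ∧ z.re < 1}

theorem S_open : IsOpen S :=
  (isOpen_lt continuous_const Complex.continuous_re).inter
    (isOpen_lt Complex.continuous_re continuous_const)

theorem S_conv : Convex ℝ S :=
  (convex_halfSpace_re_gt 0).inter (convex_halfSpace_re_lt 1)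

theorem dG : DifferentiableOn ℂ G S := by
  intro z hz
  have hz1 : 0 < z.re := hz.1
  have hz2 : z.re < 1 := hz.2
  have key : ∀ w : ℂ, 0 < w.re → DifferentiableAt ℂ Gamma w := by
    intro w hw
    refine differentiableAt_Gamma w fun m h => ?_
    rw [h] at hw
    simp at hw
    have : (0 : ℝ) ≤ m := Nat.cast_nonneg m
    linarith
  have e1 : 0 < (z / 2).re := by simp; linarith
  have e2 : 0 < (1 - z).re := by simp; linarith
  have e3 : 0 < (1 - z / 2).re := by simp; linarith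
  have d1 : DifferentiableAt ℂ (fun z : ℂ => Gamma (z / 2)) z :=
    DifferentiableAt.comp z (key _ e1) (by fun_prop : DifferentiableAt ℂ (fun z : ℂ => z / 2) z)
  have d2 : DifferentiableAt ℂ (fun z : ℂ => Gamma (1 - z)) z :=
    DifferentiableAt.comp z (key _ e2) (by fun_prop : DifferentiableAt ℂ (fun z : ℂ => 1 - z) z)
  have d3 : DifferentiableAt ℂ (fun z : ℂ => Gamma (1 - z / 2)) z :=
    DifferentiableAt.comp z (key _ e3) (by fun_prop : DifferentiableAt ℂ (fun z : ℂ => 1 - z / 2) z)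
  have d4 : DifferentiableAt ℂ (fun z : ℂ => Gamma z) z := key _ hz1
  have n1 : Gamma (1 - z / 2) * Gamma (1 - z / 2) * Gamma z ≠ 0 :=
    mul_ne_zero (mul_ne_zero (Gamma_ne_zero_of_re_pos e3) (Gamma_ne_zero_of_re_pos e3))
      (Gamma_ne_zero_of_re_pos hz1)
  exact (((((d1.mul d1).mul d2).const_mul (Real.pi : ℂ)).div ((d3.mul d3).mul d4) n1)).differentiableWithinAt

theorem mem_int {r : ℝ} (h : -2 < r) (h' : r < -1) :
    r ∈ interior (integrableExpSet X (volume : Measure ℂ)) := by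
  rw [mem_interior]
  refine ⟨Ioo (-2) (-1), ?_, isOpen_Ioo, ⟨h, h'⟩⟩
  intro s hs
  have := integ (s + 2) (by linarith [hs.1]) (by linarith [hs.2])
  simpa [integrableExpSet] using this

theorem dJ : DifferentiableOn ℂ (fun z => complexMGF X (volume : Measure ℂ) (z - 2)) S := by
  intro z hz
  have hz1 : 0 < z.re := hz.1
  have hz2 : z.re < 1 := hz.2
  have h1 : (z - 2).re ∈ interior (integrableExpSet X (volume : Measure ℂ)) := by
    apply mem_int <;> simp <;> linarith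
  have h2 := (hasDerivAt_complexMGF h1).differentiableAt
  have h3 : DifferentiableAt ℂ (fun z : ℂ => z - 2) z := by fun_prop
  exact (DifferentiableAt.comp z h2 h3).differentiableWithinAt

theorem GR (a : ℝ) : G (a : ℂ) = (RB a a : ℝ) := by
  unfold G RB
  push_cast [← Complex.Gamma_ofReal]
  have e : ((a : ℂ) + a) / 2 = a := by ring
  rw [e]

theorem eqJG : EqOn (fun z => complexMGF X (volume : Measure ℂ) (z - 2)) G S := by
  have hz0 : ((1 / 2 : ℝ) : ℂ) ∈ S := by
    constructor <;> (rw [Complex.ofReal_re]; norm_num)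
  refine AnalyticOnNhd.eqOn_of_preconnected_of_frequently_eq (dJ.analyticOnNhd S_open)
    (dG.analyticOnNhd S_open) S_conv.isPreconnected hz0 ?_
  have ht : Tendsto (fun a : ℝ => (a : ℂ)) (𝓝[≠] (1 / 2 : ℝ)) (𝓝[≠] ((1 / 2 : ℝ) : ℂ)) := by
    refine tendsto_nhdsWithin_iff.2 ⟨?_, ?_⟩
    · exact (Complex.continuous_ofReal.tendsto _).mono_left nhdsWithin_le_nhds
    · filter_upwards [self_mem_nhdsWithin] with a ha
      simp only [mem_compl_iff, mem_singleton_iff] at ha ⊢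
      exact fun h => ha (Complex.ofReal_injective h)
  refine ht.frequently ?_
  refine Eventually.frequently ?_
  have h1 : ∀ᶠ a in 𝓝[≠] (1 / 2 : ℝ), a ∈ Ioo (0 : ℝ) 1 :=
    nhdsWithin_le_nhds (Ioo_mem_nhds (by norm_num) (by norm_num))
  filter_upwards [h1] with a ha
  have h2 : ((a : ℂ) - 2) = ((a - 2 : ℝ) : ℂ) := by push_cast; ring
  rw [h2, complexMGF_ofReal, mg a ha.1 ha.2, GR]

theorem RIeq (y : ℝ) : RI y = G (1 / 2 - ((y / 2 : ℝ) : ℂ) * I) := by
  have hm : (1 / 2 - ((y / 2 : ℝ) : ℂ) * I) ∈ S := by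
    constructor <;> simp <;> norm_num
  rw [← eqJG hm]
  simp only [complexMGF, RI]
  refine integral_congr_ae ?_
  filter_upwards [aepos] with t ht
  have ht' : ((‖t‖ * ‖1 - t‖ : ℝ) : ℂ) ≠ 0 := by
    exact_mod_cast ht.ne'
  rw [Complex.cpow_def_of_ne_zero ht', X, Complex.ofReal_log ht.le]
  congr 1
  ring

theorem nb (u : ℂ) (hu : 0 < u.re) :
    ‖betaIntegral u (1 / 2)‖ ≤ ‖betaIntegral (u.re : ℂ) (1 / 2)‖ := by
  have h1 : betaIntegral (u.re : ℂ) (1 / 2) =
      ((∫ x : ℝ in (0 : ℝ)..1, x ^ (u.re - 1) * (1 - x) ^ (-(1 / 2) : ℝ) : ℝ) : ℂ) := by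
    rw [← intervalIntegral.integral_ofReal, betaIntegral]
    refine intervalIntegral.integral_congr fun x hx => ?_
    rw [uIcc_of_le zero_le_one] at hx
    rw [Complex.ofReal_mul, Complex.ofReal_cpow hx.1, Complex.ofReal_cpow (by linarith [hx.2])]
    push_cast
    congr 2
    norm_num
  have h2 : 0 ≤ ∫ x : ℝ in (0 : ℝ)..1, x ^ (u.re - 1) * (1 - x) ^ (-(1 / 2) : ℝ) := by
    refine intervalIntegral.integral_nonneg zero_le_one fun x hx => ?_
    exact mul_nonneg (Real.rpow_nonneg hx.1 _) (Real.rpow_nonneg (by linarith [hx.2]) _)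
  rw [h1, Complex.norm_real, Real.norm_of_nonneg h2, betaIntegral]
  refine (intervalIntegral.norm_integral_le_integral_norm zero_le_one).trans (le_of_eq ?_)
  rw [intervalIntegral.integral_of_le zero_le_one, intervalIntegral.integral_of_le zero_le_one]
  refine setIntegral_congr_fun measurableSet_Ioc fun x hx => ?_
  have e : (1 - (x : ℂ)) = ((1 - x : ℝ) : ℂ) := by push_cast; ring
  rw [norm_mul, e, Complex.norm_cpow_eq_rpow_re_of_pos hx.1,
    Complex.norm_cpow_eq_rpow_re_of_nonneg (by linarith [hx.2]) (by norm_num)]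
  norm_num

theorem gq (u : ℂ) (hu : 0 < u.re) :
    ‖Gamma u‖ / ‖Gamma (u + 1 / 2)‖ ≤ Real.Gamma u.re / Real.Gamma (u.re + 1 / 2) := by
  have h := nb u hu
  have hh : 0 < (1 / 2 : ℂ).re := by norm_num
  rw [betaIntegral_eq_Gamma_mul_div u (1 / 2) hu hh,
    betaIntegral_eq_Gamma_mul_div (u.re : ℂ) (1 / 2) (by simpa using hu) hh] at h
  have e1 : ((u.re : ℂ) + 1 / 2) = ((u.re + 1 / 2 : ℝ) : ℂ) := by push_cast; ring
  rw [e1, Complex.Gamma_ofReal, Complex.Gamma_ofReal, norm_div, norm_div, norm_mul, norm_mul,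
    Complex.norm_real, Complex.norm_real,
    Real.norm_of_nonneg (Real.Gamma_pos_of_pos hu).le,
    Real.norm_of_nonneg (Real.Gamma_pos_of_pos (by linarith : 0 < u.re + 1 / 2)).le] at h
  have h3 : 0 < ‖Gamma (1 / 2 : ℂ)‖ := norm_pos_iff.2 (Gamma_ne_zero_of_re_pos hh)
  have h4 : ‖Gamma u‖ * ‖Gamma (1 / 2 : ℂ)‖ / ‖Gamma (u + 1 / 2)‖ =
      (‖Gamma u‖ / ‖Gamma (u + 1 / 2)‖) * ‖Gamma (1 / 2 : ℂ)‖ := by ring
  have h5 : Real.Gamma u.re * ‖Gamma (1 / 2 : ℂ)‖ / Real.Gamma (u.re + 1 / 2) =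
      (Real.Gamma u.re / Real.Gamma (u.re + 1 / 2)) * ‖Gamma (1 / 2 : ℂ)‖ := by ring
  rw [h4, h5] at h
  exact le_of_mul_le_mul_right h h3

theorem c4q : Real.Gamma (5 / 4) / Real.Gamma (5 / 4 + 1 / 2) = c4 / 3 := by
  have h1 : Real.Gamma (5 / 4) = 1 / 4 * Real.Gamma (1 / 4) := by
    rw [← Real.Gamma_add_one (by norm_num)]; norm_num
  have h2 : Real.Gamma (5 / 4 + 1 / 2) = 3 / 4 * Real.Gamma (3 / 4) := by
    rw [← Real.Gamma_add_one (by norm_num)]; norm_num
  rw [h1, h2, c4]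
  have := (Real.Gamma_pos_of_pos (show (0 : ℝ) < 3 / 4 by norm_num)).ne'
  field_simp

theorem t : P_CRZ := by
  intro y
  rw [RIeq y]
  set η : ℝ := y / 4 with hη
  set s : ℂ := 1 / 4 - (η : ℂ) * I with hs
  have hz : (1 / 2 - ((y / 2 : ℝ) : ℂ) * I) = 2 * s := by
    rw [hs, hη]; push_cast; ring
  have hsre : s.re = 1 / 4 := by rw [hs]; simp
  have hsim : s.im = -η := by rw [hs]; simp
  have e1 : (1 : ℂ) - 2 * s = conj (2 * s) := by
    apply Complex.ext
    · simp [hsre]; norm_num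
    · simp [hsim]
  have e2 : (1 : ℂ) - 2 * s / 2 = conj (s + 1 / 2) := by
    apply Complex.ext
    · simp [hsre]; norm_num
    · simp [hsim]
  have e3 : (2 : ℂ) * s / 2 = s := by ring
  have hnG : ‖G (2 * s)‖ = Real.pi * (‖Gamma s‖ / ‖Gamma (s + 1 / 2)‖) ^ 2 := by
    unfold G
    have hne : ‖Gamma (2 * s)‖ ≠ 0 :=
      norm_ne_zero_iff.2 (Gamma_ne_zero_of_re_pos (by simp [hsre]))
    have hne2 : ‖Gamma (s + 1 / 2)‖ ≠ 0 :=
      norm_ne_zero_iff.2 (Gamma_ne_zero_of_re_pos (by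
        rw [Complex.add_re, hsre]; norm_num))
    rw [e2, e3, e1, Complex.Gamma_conj, Complex.Gamma_conj]
    simp only [norm_div, norm_mul, Complex.norm_conj, Complex.norm_real,
      Real.norm_of_nonneg Real.pi_pos.le]
    field_simp
  rw [hz, hnG]
  have hs0 : s ≠ 0 := by
    intro h
    rw [h] at hsre
    norm_num at hsre
  have hs1 : s + 1 / 2 ≠ 0 := by
    intro h
    have := congrArg Complex.re h
    rw [Complex.add_re, hsre] at this
    norm_num at this
  have g1 : Gamma s = Gamma (s + 1) / s := by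
    rw [Complex.Gamma_add_one s hs0]; field_simp
  have g2 : Gamma (s + 1 / 2) = Gamma (s + 1 + 1 / 2) / (s + 1 / 2) := by
    have : s + 1 + 1 / 2 = (s + 1 / 2) + 1 := by ring
    rw [this, Complex.Gamma_add_one (s + 1 / 2) hs1, mul_div_cancel_left₀ _ hs1]
  have g3 := gq (s + 1) (by rw [Complex.add_re, hsre]; norm_num)
  have g4 : (s + 1).re = 5 / 4 := by rw [Complex.add_re, hsre]; norm_num
  rw [g4, c4q] at g3
  have g5 : ‖Gamma s‖ / ‖Gamma (s + 1 / 2)‖ =
      (‖Gamma (s + 1)‖ / ‖Gamma (s + 1 + 1 / 2)‖) * (‖s + 1 / 2‖ / ‖s‖) := by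
    rw [g1, g2, norm_div, norm_div]
    have a1 := norm_ne_zero_iff.2 hs0
    have a2 := norm_ne_zero_iff.2 hs1
    have a3 : ‖Gamma (s + 1 + 1 / 2)‖ ≠ 0 :=
      norm_ne_zero_iff.2 (Gamma_ne_zero_of_re_pos (by
        rw [Complex.add_re, g4]; norm_num))
    field_simp
  have n1 : ‖s‖ ^ 2 = 1 / 16 + η ^ 2 := by
    rw [← Complex.normSq_eq_norm_sq, Complex.normSq_apply, hsre, hsim]; ring
  have n2 : ‖s + 1 / 2‖ ^ 2 = 9 / 16 + η ^ 2 := by
    rw [← Complex.normSq_eq_norm_sq, Complex.normSq_apply, Complex.add_re, Complex.add_im, hsre, hsim]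
    norm_num
    ring
  have g6 : (‖Gamma s‖ / ‖Gamma (s + 1 / 2)‖) ^ 2 ≤ (c4 / 3) ^ 2 * ((9 / 16 + η ^ 2) / (1 / 16 + η ^ 2)) := by
    rw [g5, mul_pow, div_pow ‖s + 1 / 2‖, n1, n2]
    refine mul_le_mul_of_nonneg_right ?_ (by positivity)
    exact pow_le_pow_left₀ (by positivity) g3 2
  calc Real.pi * (‖Gamma s‖ / ‖Gamma (s + 1 / 2)‖) ^ 2
      ≤ Real.pi * ((c4 / 3) ^ 2 * ((9 / 16 + η ^ 2) / (1 / 16 + η ^ 2))) :=
        mul_le_mul_of_nonneg_left g6 Real.pi_pos.le
    _ = Real.pi * c4 ^ 2 * (1 + y ^ 2 / 9) / (1 + y ^ 2) := by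
        rw [hη]
        have : (1 : ℝ) + y ^ 2 ≠ 0 := by positivity
        have h16 : (1 / 16 + (y / 4) ^ 2 : ℝ) ≠ 0 := by positivity
        field_simp
        ring

end Pool.Agent.H47PB.CRZ
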