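import Mathlib
import Pool.Agent.H78.PB.Stm2

/-!
Project PB, part MOM: moments of the kernels of the strip.
-/

set_option autoImplicit false

open MeasureTheory Filter Topology Complex Set
open scoped ComplexConjugate ENNReal

namespace Pool.Agent.H47PB.MOM

open Pool.Agent.H78.PB

theorem sn {θ : ℝ} (h0 : 0 < θ) (h1 : θ < 1) : 0 < Real.sin (Real.pi * θ) := by
  apply Real.sin_pos_of_pos_of_lt_pi
  · have := Real.pi_pos; positivity
  · have := Real.pi_pos; nlinarith

theorem p0n {θ : ℝ} (h0 : 0 < θ) (h1 : θ < 1) (y : ℝ) : 0 ≤ p0 θ y := by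
  unfold p0
  have h2 := sn h0 h1
  have h3 := Real.one_le_cosh (Real.pi * y)
  have h4 := Real.cos_le_one (Real.pi * θ)
  exact div_nonneg h2.le (by linarith)

theorem p1n {θ : ℝ} (h0 : 0 < θ) (h1 : θ < 1) (y : ℝ) : 0 ≤ p1 θ y := by
  unfold p1
  have h2 := sn h0 h1
  have h3 := Real.one_le_cosh (Real.pi * y)
  have h4 := Real.neg_one_le_cos (Real.pi * θ)
  exact div_nonneg h2.le (by linarith)

/-- integrability against a function of polynomial growth -/
theorem ig {p : ℝ → ℝ} (hp : ∀ y, 0 ≤ p y) (hi : ∀ k : ℕ, Integrable (fun y : ℝ => p y * (1 + |y|) ^ k))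
    {f : ℝ → ℝ} (hf : Continuous f) (C : ℝ) (k : ℕ) (hb : ∀ y, |f y| ≤ C * (1 + |y|) ^ k) :
    Integrable (fun y => p y * f y) := by
  have hp0 : Integrable p := by simpa using hi 0
  refine ((hi k).const_mul C).mono' (hp0.aestronglyMeasurable.mul hf.aestronglyMeasurable) ?_
  refine Eventually.of_forall fun y => ?_
  rw [Real.norm_eq_abs, abs_mul, abs_of_nonneg (hp y)]
  calc p y * |f y| ≤ p y * (C * (1 + |y|) ^ k) := mul_le_mul_of_nonneg_left (hb y) (hp y)
    _ = C * (p y * (1 + |y|) ^ k) := by ring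

theorem igC {p : ℝ → ℝ} (hp : ∀ y, 0 ≤ p y) (hi : ∀ k : ℕ, Integrable (fun y : ℝ => p y * (1 + |y|) ^ k))
    {f : ℝ → ℂ} (hf : Continuous f) (C : ℝ) (k : ℕ) (hb : ∀ y, ‖f y‖ ≤ C * (1 + |y|) ^ k) :
    Integrable (fun y => (p y : ℂ) * f y) := by
  have hp0 : Integrable p := by simpa using hi 0
  refine ((hi k).const_mul C).mono' (hp0.ofReal.aestronglyMeasurable.mul hf.aestronglyMeasurable) ?_
  refine Eventually.of_forall fun y => ?_
  rw [norm_mul, Complex.norm_real, Real.norm_eq_abs, abs_of_nonneg (hp y)]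
  calc p y * ‖f y‖ ≤ p y * (C * (1 + |y|) ^ k) := mul_le_mul_of_nonneg_left (hb y) (hp y)
    _ = C * (p y * (1 + |y|) ^ k) := by ring

theorem reF (h1 : P_KRN) (h2 : P_POI) {θ : ℝ} (t0 : 0 < θ) (t1 : θ < 1) (h : ℂ → ℂ) (k : ℕ) (C : ℝ)
    (hd : DiffContOnCl ℂ h {z : ℂ | 0 < z.re ∧ z.re < 1})
    (hb : ∀ z : ℂ, 0 ≤ z.re → z.re ≤ 1 → ‖h z‖ ≤ C * (1 + |z.im|) ^ k)
    (c0 : Continuous fun y : ℝ => h ((y : ℂ) * I)) (c1 : Continuous fun y : ℝ => h (1 + (y : ℂ) * I)) :
    (h (θ : ℂ)).re = (∫ y : ℝ, p0 θ y * (h ((y : ℂ) * I)).re) +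
      ∫ y : ℝ, p1 θ y * (h (1 + (y : ℂ) * I)).re := by
  obtain ⟨hi, -, -⟩ := h1 θ t0 t1
  have i0 := igC (p0n t0 t1) (fun k => (hi k).1) c0 C k (fun y => by
    have := hb ((y : ℂ) * I) (by simp) (by simp)
    simpa using this)
  have i1 := igC (p1n t0 t1) (fun k => (hi k).2) c1 C k (fun y => by
    have := hb (1 + (y : ℂ) * I) (by simp) (by simp)
    simpa using this)
  have e0 : (∫ y : ℝ, p0 θ y * (h ((y : ℂ) * I)).re) = (∫ y : ℝ, (p0 θ y : ℂ) * h ((y : ℂ) * I)).re := by
    have := integral_re i0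
    rw [RCLike.re_eq_complex_re] at this
    rw [← this]
    refine integral_congr_ae (Eventually.of_forall fun y => ?_)
    simp
  have e1 : (∫ y : ℝ, p1 θ y * (h (1 + (y : ℂ) * I)).re) =
      (∫ y : ℝ, (p1 θ y : ℂ) * h (1 + (y : ℂ) * I)).re := by
    have := integral_re i1
    rw [RCLike.re_eq_complex_re] at this
    rw [← this]
    refine integral_congr_ae (Eventually.of_forall fun y => ?_)
    simp
  rw [e0, e1, ← Complex.add_re, ← h2 θ t0 t1 h k C hd hb]

theorem reab (a b : ℝ) : ((a : ℂ) + (b : ℂ) * I).re = a := by simp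

theorem nz (z : ℂ) (h0 : 0 ≤ z.re) (h1 : z.re ≤ 1) : ‖z‖ ≤ 1 + |z.im| := by
  calc ‖z‖ ≤ |z.re| + |z.im| := Complex.norm_le_abs_re_add_abs_im z
    _ ≤ 1 + |z.im| := by rw [abs_of_nonneg h0]; linarith

theorem nsinh (z : ℂ) : ‖Complex.sinh z‖ ≤ Real.cosh z.re := by
  rw [Complex.sinh, norm_div]
  have h1 : ‖Complex.exp z - Complex.exp (-z)‖ ≤ Real.exp z.re + Real.exp (-z.re) := by
    refine (norm_sub_le _ _).trans ?_
    rw [Complex.norm_exp, Complex.norm_exp]
    simp
  rw [Real.cosh_eq]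
  have h2 : ‖(2 : ℂ)‖ = 2 := by simp
  rw [h2]
  linarith

theorem t (h1 : P_KRN) (h2 : P_POI) : P_MOM := by
  intro θ t0 t1
  obtain ⟨hi, m0, m1⟩ := h1 θ t0 t1
  have hi0 : ∀ k : ℕ, Integrable (fun y : ℝ => p0 θ y * (1 + |y|) ^ k) := fun k => (hi k).1
  have hi1 : ∀ k : ℕ, Integrable (fun y : ℝ => p1 θ y * (1 + |y|) ^ k) := fun k => (hi k).2
  have ip0 : Integrable (fun y : ℝ => p0 θ y) := by simpa using hi0 0
  have ip1 : Integrable (fun y : ℝ => p1 θ y) := by simpa using hi1 0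
  have sqb : ∀ y : ℝ, |y ^ 2| ≤ 1 * (1 + |y|) ^ 2 := by
    intro y
    rw [abs_pow, one_mul]
    exact pow_le_pow_left₀ (abs_nonneg _) (by linarith) 2
  have is0 : Integrable (fun y : ℝ => p0 θ y * y ^ 2) := ig (p0n t0 t1) hi0 (by fun_prop) 1 2 sqb
  have is1 : Integrable (fun y : ℝ => p1 θ y * y ^ 2) := ig (p1n t0 t1) hi1 (by fun_prop) 1 2 sqb
  -- the function `z ^ 3`
  have A3 : (∫ y, p1 θ y * y ^ 2) = θ * (1 - θ ^ 2) / 3 := by
    have := reF h1 h2 t0 t1 (fun z => z ^ 3) 3 1 (by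
      apply Differentiable.diffContOnCl; fun_prop) (fun z z0 z1 => by
        rw [norm_pow, one_mul]
        exact pow_le_pow_left₀ (norm_nonneg _) (nz z z0 z1) 3) (by fun_prop) (by fun_prop)
    have a1 : ((θ : ℂ) ^ 3).re = θ ^ 3 := by
      rw [← Complex.ofReal_pow, Complex.ofReal_re]
    have a2 : ∀ y : ℝ, (((y : ℂ) * I) ^ 3).re = 0 := by
      intro y
      have : ((y : ℂ) * I) ^ 3 = ((0 : ℝ) : ℂ) + ((- y ^ 3 : ℝ) : ℂ) * I := by
        push_cast
        have hI : (I : ℂ) ^ 2 = -1 := Complex.I_sq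
        linear_combination ((y : ℂ) ^ 3 * I) * hI
      rw [this]
      exact reab _ _
    have a3 : ∀ y : ℝ, ((1 + (y : ℂ) * I) ^ 3).re = 1 - 3 * y ^ 2 := by
      intro y
      have : (1 + (y : ℂ) * I) ^ 3 = ((1 - 3 * y ^ 2 : ℝ) : ℂ) + ((3 * y - y ^ 3 : ℝ) : ℂ) * I := by
        push_cast
        have hI : (I : ℂ) ^ 2 = -1 := Complex.I_sq
        linear_combination (3 * (y : ℂ) ^ 2 + (y : ℂ) ^ 3 * I) * hI
      rw [this]
      exact reab _ _
    simp only [a1, a2, a3, mul_zero, integral_zero, zero_add] at this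
    have b1 : (∫ y, p1 θ y * (1 - 3 * y ^ 2)) = (∫ y, p1 θ y) - 3 * ∫ y, p1 θ y * y ^ 2 := by
      rw [← integral_const_mul, ← integral_sub ip1 (is1.const_mul 3)]
      refine integral_congr_ae (Eventually.of_forall fun y => ?_)
      simp only
      ring
    rw [b1, m1] at this
    linarith
  have A2 : (∫ y, p0 θ y * y ^ 2) = (1 - θ) * (2 * θ - θ ^ 2) / 3 := by
    have := reF h1 h2 t0 t1 (fun z => z ^ 2) 2 1 (by
      apply Differentiable.diffContOnCl; fun_prop) (fun z z0 z1 => by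
        rw [norm_pow, one_mul]
        exact pow_le_pow_left₀ (norm_nonneg _) (nz z z0 z1) 2) (by fun_prop) (by fun_prop)
    have a1 : ((θ : ℂ) ^ 2).re = θ ^ 2 := by
      rw [← Complex.ofReal_pow, Complex.ofReal_re]
    have a2 : ∀ y : ℝ, (((y : ℂ) * I) ^ 2).re = - y ^ 2 := by
      intro y
      have : ((y : ℂ) * I) ^ 2 = ((- y ^ 2 : ℝ) : ℂ) + ((0 : ℝ) : ℂ) * I := by
        push_cast
        have hI : (I : ℂ) ^ 2 = -1 := Complex.I_sq
        linear_combination ((y : ℂ) ^ 2) * hI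
      rw [this]
      exact reab _ _
    have a3 : ∀ y : ℝ, ((1 + (y : ℂ) * I) ^ 2).re = 1 - y ^ 2 := by
      intro y
      have : (1 + (y : ℂ) * I) ^ 2 = ((1 - y ^ 2 : ℝ) : ℂ) + ((2 * y : ℝ) : ℂ) * I := by
        push_cast
        have hI : (I : ℂ) ^ 2 = -1 := Complex.I_sq
        linear_combination ((y : ℂ) ^ 2) * hI
      rw [this]
      exact reab _ _
    simp only [a1, a2, a3] at this
    have b0 : (∫ y, p0 θ y * (- y ^ 2)) = - ∫ y, p0 θ y * y ^ 2 := by
      rw [← integral_neg]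
      refine integral_congr_ae (Eventually.of_forall fun y => ?_)
      simp only
      ring
    have b1 : (∫ y, p1 θ y * (1 - y ^ 2)) = (∫ y, p1 θ y) - ∫ y, p1 θ y * y ^ 2 := by
      rw [← integral_sub ip1 is1]
      refine integral_congr_ae (Eventually.of_forall fun y => ?_)
      simp only
      ring
    rw [b0, b1, m1, A3] at this
    linarith
  refine ⟨A2, A3, ?_, ?_⟩
  · intro t ht
    have hsh : Real.sinh t ≠ 0 := by
      intro h
      exact ht (Real.sinh_eq_zero.1 h)
    have hc : ((Real.sinh t : ℝ) : ℂ) ≠ 0 := by exact_mod_cast hsh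
    have := reF h1 h2 t0 t1 (fun z => Complex.sinh ((t : ℂ) * z) / ((Real.sinh t : ℝ) : ℂ)) 0
      (Real.cosh t / |Real.sinh t|) (by
      apply Differentiable.diffContOnCl; fun_prop) (fun z z0 z1 => by
        rw [pow_zero, mul_one, norm_div, Complex.norm_real, Real.norm_eq_abs]
        refine div_le_div_of_nonneg_right ((nsinh _).trans ?_) (abs_nonneg _)
        rw [Complex.re_ofReal_mul, Real.cosh_le_cosh, abs_mul, abs_of_nonneg z0]
        have := abs_nonneg t
        nlinarith) (by fun_prop) (by fun_prop)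
    have a1 : (Complex.sinh ((t : ℂ) * (θ : ℂ)) / ((Real.sinh t : ℝ) : ℂ)).re =
        Real.sinh (θ * t) / Real.sinh t := by
      rw [← Complex.ofReal_mul, ← Complex.ofReal_sinh, ← Complex.ofReal_div, Complex.ofReal_re,
        mul_comm]
    have a2 : ∀ y : ℝ, (Complex.sinh ((t : ℂ) * ((y : ℂ) * I)) / ((Real.sinh t : ℝ) : ℂ)).re = 0 := by
      intro y
      have : Complex.sinh ((t : ℂ) * ((y : ℂ) * I)) =
          ((0 : ℝ) : ℂ) + ((Real.sin (t * y) : ℝ) : ℂ) * I := by
        rw [← mul_assoc, Complex.sinh_mul_I, ← Complex.ofReal_mul, ← Complex.ofReal_sin]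
        simp
      rw [this, Complex.div_ofReal_re, reab, zero_div]
    have a3 : ∀ y : ℝ, (Complex.sinh ((t : ℂ) * (1 + (y : ℂ) * I)) / ((Real.sinh t : ℝ) : ℂ)).re =
        Real.cos (t * y) := by
      intro y
      have e : (t : ℂ) * (1 + (y : ℂ) * I) = (t : ℂ) + ((t * y : ℝ) : ℂ) * I := by push_cast; ring
      have e2 : Complex.sinh ((t : ℂ) * (1 + (y : ℂ) * I)) =
          ((Real.sinh t * Real.cos (t * y) : ℝ) : ℂ) + ((Real.cosh t * Real.sin (t * y) : ℝ) : ℂ) * I := by
        rw [e, Complex.sinh_add, Complex.cosh_mul_I, Complex.sinh_mul_I, ← Complex.ofReal_sinh,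
          ← Complex.ofReal_cosh, ← Complex.ofReal_sin, ← Complex.ofReal_cos]
        push_cast
        ring
      rw [e2, Complex.div_ofReal_re, reab]
      field_simp
    simp only [a1, a2, a3, mul_zero, integral_zero, zero_add] at this
    exact this.symm
  · -- the function `1 / (2 - z)`
    have hden : ∀ z : ℂ, z.re ≤ 1 → 1 ≤ ‖2 - z‖ := by
      intro z hz
      have : (2 - z).re ≤ ‖2 - z‖ := Complex.re_le_norm _
      have e : (2 - z).re = 2 - z.re := by simp
      linarith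
    have hden0 : ∀ z : ℂ, z.re ≤ 1 → 2 - z ≠ 0 := by
      intro z hz h
      have := hden z hz
      rw [h, norm_zero] at this
      linarith
    have := reF h1 h2 t0 t1 (fun z => 1 / (2 - z)) 0 1 (by
        apply DifferentiableOn.diffContOnCl
        intro z hz
        have hz1 : z.re ≤ 1 := by
          have hcl : closure {z : ℂ | 0 < z.re ∧ z.re < 1} ⊆ {z : ℂ | z.re ≤ 1} := by
            refine closure_minimal (fun z hz => hz.2.le) ?_
            exact isClosed_le Complex.continuous_re continuous_const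
          exact hcl hz
        have hne := hden0 z hz1
        have : DifferentiableAt ℂ (fun z : ℂ => 1 / (2 - z)) z := by
          fun_prop (disch := exact hne)
        exact this.differentiableWithinAt) (fun z z0 z1 => by
        rw [pow_zero, mul_one, norm_div, norm_one]
        exact (div_le_one (by linarith [hden z z1])).2 (hden z z1)) (by
          refine Continuous.div continuous_const (by fun_prop) fun y => ?_
          exact hden0 _ (by simp)) (by
          refine Continuous.div continuous_const (by fun_prop) fun y => ?_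
          exact hden0 _ (by simp))
    have a1 : (1 / (2 - (θ : ℂ))).re = 1 / (2 - θ) := by
      have : (1 / (2 - (θ : ℂ))) = ((1 / (2 - θ) : ℝ) : ℂ) := by push_cast; ring
      rw [this, Complex.ofReal_re]
    have a2 : ∀ y : ℝ, (1 / (2 - (y : ℂ) * I)).re = 2 / (4 + y ^ 2) := by
      intro y
      have : (1 / (2 - (y : ℂ) * I)) = ((2 / (4 + y ^ 2) : ℝ) : ℂ) + ((y / (4 + y ^ 2) : ℝ) : ℂ) * I := by
        have h4 : (4 + (y : ℂ) ^ 2) ≠ 0 := by
          have : (0 : ℝ) < 4 + y ^ 2 := by positivity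
          exact_mod_cast this.ne'
        have h5 : (2 - (y : ℂ) * I) ≠ 0 := hden0 _ (by simp)
        push_cast
        rw [div_eq_iff h5]
        field_simp
        have hI : (I : ℂ) ^ 2 = -1 := Complex.I_sq
        linear_combination ((y : ℂ) ^ 2) * hI
      rw [this]
      exact reab _ _
    have a3 : ∀ y : ℝ, (1 / (2 - (1 + (y : ℂ) * I))).re = 1 / (1 + y ^ 2) := by
      intro y
      have : (1 / (2 - (1 + (y : ℂ) * I))) = ((1 / (1 + y ^ 2) : ℝ) : ℂ) + ((y / (1 + y ^ 2) : ℝ) : ℂ) * I := by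
        have h4 : (1 + (y : ℂ) ^ 2) ≠ 0 := by
          have : (0 : ℝ) < 1 + y ^ 2 := by positivity
          exact_mod_cast this.ne'
        have h5 : (2 - (1 + (y : ℂ) * I)) ≠ 0 := hden0 _ (by simp)
        push_cast
        rw [div_eq_iff h5]
        field_simp
        have hI : (I : ℂ) ^ 2 = -1 := Complex.I_sq
        linear_combination ((y : ℂ) ^ 2) * hI
      rw [this]
      exact reab _ _
    simp only [a1, a2, a3] at this
    have e1 : (∫ y, p1 θ y / (1 + y ^ 2)) = ∫ y, p1 θ y * (1 / (1 + y ^ 2)) := by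
      refine integral_congr_ae (Eventually.of_forall fun y => ?_)
      simp only
      ring
    rw [e1]
    set s : ℝ := 4 + (2 * θ - θ ^ 2) / 3 with hs
    have spos : 0 < s := by rw [hs]; nlinarith
    have c1 : ∫ y, p0 θ y * (2 * (2 / s - (4 + y ^ 2) / s ^ 2)) ≤ ∫ y, p0 θ y * (2 / (4 + y ^ 2)) := by
      refine integral_mono ?_ ?_ ?_
      · have : (fun y => p0 θ y * (2 * (2 / s - (4 + y ^ 2) / s ^ 2))) =
            fun y => (4 / s - 8 / s ^ 2) * p0 θ y - 2 / s ^ 2 * (p0 θ y * y ^ 2) := by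
          ext y; ring
        rw [this]
        exact (ip0.const_mul _).sub (is0.const_mul _)
      · refine ig (p0n t0 t1) hi0 ?_ 1 0 ?_
        · exact Continuous.div continuous_const (by fun_prop) fun y => by positivity
        · intro y
          rw [pow_zero, mul_one, abs_of_nonneg (by positivity), div_le_one (by positivity)]
          nlinarith [sq_nonneg y]
      · intro y
        simp only
        refine mul_le_mul_of_nonneg_left ?_ (p0n t0 t1 y)
        have h4 : (0 : ℝ) < 4 + y ^ 2 := by positivity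
        have : 2 / (4 + y ^ 2) - 2 * (2 / s - (4 + y ^ 2) / s ^ 2) =
            2 * ((4 + y ^ 2) - s) ^ 2 / ((4 + y ^ 2) * s ^ 2) := by
          field_simp
          ring
        have h5 : 0 ≤ 2 * ((4 + y ^ 2) - s) ^ 2 / ((4 + y ^ 2) * s ^ 2) := by positivity
        linarith
    have c2 : ∫ y, p0 θ y * (2 * (2 / s - (4 + y ^ 2) / s ^ 2)) = 2 * (1 - θ) / s := by
      have : (fun y => p0 θ y * (2 * (2 / s - (4 + y ^ 2) / s ^ 2))) =
          fun y => (4 / s - 8 / s ^ 2) * p0 θ y - 2 / s ^ 2 * (p0 θ y * y ^ 2) := by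
        ext y; ring
      rw [this, integral_sub (ip0.const_mul _) (is0.const_mul _), integral_const_mul,
        integral_const_mul, A2, m0]
      have hs3 : (2 * θ - θ ^ 2) = 3 * (s - 4) := by rw [hs]; ring
      rw [hs3]
      field_simp
      ring
    rw [c2] at c1
    have c3 : 1 / (2 - θ) - 2 * (1 - θ) / s = θ * (20 - 7 * θ) / ((2 - θ) * (12 + 2 * θ - θ ^ 2)) := by
      have h6 : (2 - θ) ≠ 0 := by linarith
      have h7 : 12 + 2 * θ - θ ^ 2 ≠ 0 := by nlinarith
      have h8 : s = (12 + 2 * θ - θ ^ 2) / 3 := by rw [hs]; ring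
      rw [h8]
      field_simp
      ring
    rw [← c3]
    linarith

end Pool.Agent.H47PB.MOM
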